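import Pool.Agent.N549.HG.Stm5
import Pool.Agent.N364.HG.Conf
import Pool.Agent.N457.HG.Torus

/-!
# Hard spheres: one more point at low density (HG/LOWD, project HG of helper549)
-/

set_option autoImplicit false
set_option maxHeartbeats 400000

namespace Pool.Agent.N707.HG

open MeasureTheory Set Finset
open Pool.Agent.N549.HG Pool.Agent.N364.HG
open scoped ENNReal NNReal

/-- Bonferroni -/
theorem bonf {k : ℕ} (s : Fin k → Prop) [DecidablePred s] :
    (1 : ℝ≥0∞) ≤ (∏ i, if s i then 1 else 0) + ∑ i, (if s i then 0 else 1) ∧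
    2 * (∏ i, if s i then (1 : ℝ≥0∞) else 0) + 2 * ∑ i, (if s i then (0 : ℝ≥0∞) else 1) ≤
      2 + ∑ p ∈ (univ : Finset (Fin k)).offDiag,
        (if s p.1 then (0 : ℝ≥0∞) else 1) * (if s p.2 then 0 else 1) := by
  set S : Finset (Fin k) := univ.filter fun i => ¬ s i with hS
  have h1 : ∑ i, (if s i then (0 : ℝ≥0∞) else 1) = (S.card : ℝ≥0∞) := by
    rw [hS, Finset.card_filter]
    push_cast
    refine Finset.sum_congr rfl fun i _ => ?_
    split_ifs <;> simp_all
  have h2 : ∑ p ∈ (univ : Finset (Fin k)).offDiag,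
        (if s p.1 then (0 : ℝ≥0∞) else 1) * (if s p.2 then 0 else 1) =
        ((S.card * S.card - S.card : ℕ) : ℝ≥0∞) := by
    rw [← Finset.offDiag_card]
    have h3 : S.offDiag = (univ : Finset (Fin k)).offDiag.filter fun p => ¬ s p.1 ∧ ¬ s p.2 := by
      ext p
      simp only [hS, Finset.mem_offDiag, Finset.mem_filter, Finset.mem_univ, true_and]
      tauto
    rw [h3, Finset.card_filter]
    push_cast
    refine Finset.sum_congr rfl fun p _ => ?_
    by_cases a : s p.1 <;> by_cases b : s p.2 <;> simp [a, b]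
  have h0 : (∏ i, if s i then (1 : ℝ≥0∞) else 0) = if S.card = 0 then 1 else 0 := by
    split_ifs with h
    · refine Finset.prod_eq_one fun i _ => ?_
      rw [Finset.card_eq_zero, hS, Finset.filter_eq_empty_iff] at h
      have := h (Finset.mem_univ i)
      rw [if_pos (not_not.1 this)]
    · obtain ⟨i, hi⟩ := Finset.card_pos.1 (Nat.pos_of_ne_zero h)
      rw [hS, Finset.mem_filter] at hi
      exact Finset.prod_eq_zero (Finset.mem_univ i) (if_neg hi.2)
  rw [h0, h1, h2]
  generalize S.card = m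
  rcases Nat.eq_zero_or_pos m with rfl | hm
  · simp
  · rw [if_neg hm.ne']
    constructor
    · rw [zero_add]
      exact_mod_cast hm
    · rw [mul_zero, zero_add]
      have h5 : 2 * m ≤ 2 + (m * m - m) := by
        obtain ⟨j, rfl⟩ : ∃ j, m = j + 1 := ⟨m - 1, by omega⟩
        have h6 : (j + 1) * (j + 1) - (j + 1) = j * j + j := by
          have : (j + 1) * (j + 1) = j * j + j + (j + 1) := by ring
          omega
        rw [h6]
        rcases Nat.eq_zero_or_pos j with rfl | hj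
        · norm_num
        · nlinarith
      exact_mod_cast h5

section

variable {Ω : Type} [MeasurableSpace Ω] {μ : Measure Ω}

/-- splitting one coordinate off -/
theorem split_one [IsProbabilityMeasure μ] {k : ℕ} (i : Fin (k + 1)) {h : Ω → ℝ≥0∞}
    (hh : Measurable h) {Φ : (Fin k → Ω) → ℝ≥0∞} (hΦ : Measurable Φ) :
    ∫⁻ x : Fin (k + 1) → Ω, h (x i) * Φ (fun j => x (i.succAbove j)) ∂(Measure.pi fun _ => μ) =
      (∫⁻ y, h y ∂μ) * ∫⁻ x, Φ x ∂(Measure.pi fun _ => μ) := by
  have hm : Measurable fun p : Ω × (Fin k → Ω) => h p.1 * Φ p.2 :=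
    (hh.comp measurable_fst).mul (hΦ.comp measurable_snd)
  have h2 := (measurePreserving_piFinSuccAbove (fun _ : Fin (k + 1) => μ) i).lintegral_comp hm
  have h3 := lintegral_prod_mul (μ := μ) (ν := Measure.pi fun _ : Fin k => μ)
    hh.aemeasurable hΦ.aemeasurable
  rw [← h3, ← h2]
  rfl

/-- the hypotheses -/
structure Hyp (μ : Measure Ω) (F G : Ω → Ω → ℝ≥0∞) (D : ℝ≥0∞) : Prop where
  mF : Measurable (Function.uncurry F)
  mG : Measurable (Function.uncurry G)
  fg : ∀ x y, (F x y = 1 ∧ G x y = 0) ∨ (F x y = 0 ∧ G x y = 1)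
  drop : ∀ (k : ℕ) (x : Fin (k + 1) → Ω) (i : Fin (k + 1)),
    Wk F (k + 1) x ≤ Wk F k fun j => x (i.succAbove j)
  i1 : ∀ u, ∫⁻ y, G u y ∂μ = D
  i2 : ∀ y, ∫⁻ u, G u y ∂μ = D

/-- the volume of the configurations -/
noncomputable def cf (μ : Measure Ω) (F : Ω → Ω → ℝ≥0∞) (k : ℕ) : ℝ≥0∞ :=
  ∫⁻ x, Wk F k x ∂(Measure.pi fun _ => μ)

variable {F G : Ω → Ω → ℝ≥0∞} {D : ℝ≥0∞} [IsProbabilityMeasure μ]

theorem cf_A (hF : Measurable (Function.uncurry F)) (k : ℕ) : A μ F k (fun _ => 1) = cf μ F k := by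
  rw [A_eq hF k _ measurable_const]
  unfold cf
  refine lintegral_congr fun x => ?_
  rw [Finset.prod_const_one, one_mul]

theorem cf_succ (hF : Measurable (Function.uncurry F)) (k : ℕ) : cf μ F (k + 1) =
    ∫⁻ u, ∫⁻ x : Fin k → Ω, (∏ i, F u (x i)) * Wk F k x ∂(Measure.pi fun _ => μ) ∂μ := by
  rw [← cf_A hF (k + 1)]
  simp only [A]
  refine lintegral_congr fun u => ?_
  rw [one_mul, A_eq hF k]
  · simp only [one_mul]
  · exact measurable_const.mul (hF.comp (measurable_const.prodMk measurable_id))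

omit [IsProbabilityMeasure μ] in
theorem Hyp.bonf (H : Hyp μ F G D) {k : ℕ} (u : Ω) (x : Fin k → Ω) :
    (1 : ℝ≥0∞) ≤ (∏ i, F u (x i)) + ∑ i, G u (x i) ∧
    2 * (∏ i, F u (x i)) + 2 * ∑ i, G u (x i) ≤
      2 + ∑ p ∈ (univ : Finset (Fin k)).offDiag, G u (x p.1) * G u (x p.2) := by
  classical
  have h := Pool.Agent.N707.HG.bonf fun i => F u (x i) = 1
  have hF : ∀ i, F u (x i) = if F u (x i) = 1 then 1 else 0 := by
    intro i
    rcases H.fg u (x i) with ⟨h1, h2⟩ | ⟨h1, h2⟩
    · rw [h1, if_pos rfl]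
    · rw [h1, if_neg (by simp)]
  have hG : ∀ i, G u (x i) = if F u (x i) = 1 then 0 else 1 := by
    intro i
    rcases H.fg u (x i) with ⟨h1, h2⟩ | ⟨h1, h2⟩
    · rw [h1, if_pos rfl, h2]
    · rw [h1, if_neg (by simp), h2]
  simp_rw [← hF, ← hG] at h
  exact h

theorem int_one (H : Hyp μ F G D) (k : ℕ) (i : Fin k) :
    ∫⁻ u, ∫⁻ x : Fin k → Ω, G u (x i) * Wk F k x ∂(Measure.pi fun _ => μ) ∂μ = D * cf μ F k := by
  have hW := Wk_meas H.mF k
  have hm : Measurable fun p : Ω × (Fin k → Ω) => G p.1 (p.2 i) * Wk F k p.2 := by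
    have h0 : Measurable fun p : Ω × (Fin k → Ω) => (p.1, p.2 i) :=
      measurable_fst.prodMk ((measurable_pi_apply i).comp measurable_snd)
    exact (H.mG.comp h0).mul (hW.comp measurable_snd)
  rw [lintegral_lintegral_swap hm.aemeasurable]
  unfold cf
  rw [← lintegral_const_mul _ hW]
  refine lintegral_congr fun x => ?_
  have h1 : Measurable fun u : Ω => G u (x i) :=
    H.mG.comp (measurable_id.prodMk measurable_const)
  rw [lintegral_mul_const _ h1, H.i2 (x i)]

theorem int_two (H : Hyp μ F G D) (k : ℕ) (i j : Fin (k + 2)) (hij : i ≠ j) (u : Ω) :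
    ∫⁻ x : Fin (k + 2) → Ω, (G u (x i) * G u (x j)) * Wk F (k + 2) x
      ∂(Measure.pi fun _ => μ) ≤ D ^ 2 * cf μ F k := by
  obtain ⟨j', rfl⟩ := Fin.exists_succAbove_eq hij.symm
  have hnu : Measurable (G u) := H.mG.comp (measurable_const.prodMk measurable_id)
  have hW := Wk_meas H.mF k
  have hΦ : Measurable fun y : Fin (k + 1) → Ω =>
      G u (y j') * Wk F k fun l => y (j'.succAbove l) :=
    (hnu.comp (measurable_pi_apply j')).mul
      (hW.comp (measurable_pi_lambda _ fun l => measurable_pi_apply _))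
  calc ∫⁻ x : Fin (k + 2) → Ω, (G u (x i) * G u (x (i.succAbove j'))) *
        Wk F (k + 2) x ∂(Measure.pi fun _ => μ)
      ≤ ∫⁻ x : Fin (k + 2) → Ω, G u (x i) * (G u (x (i.succAbove j')) *
        Wk F k fun l => x (i.succAbove (j'.succAbove l))) ∂(Measure.pi fun _ => μ) := by
        refine lintegral_mono fun x => ?_
        simp only
        rw [mul_assoc]
        refine mul_le_mul' le_rfl (mul_le_mul' le_rfl ?_)
        exact (H.drop (k + 1) x i).trans (H.drop k (fun l => x (i.succAbove l)) j')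
    _ = (∫⁻ y, G u y ∂μ) * ∫⁻ y : Fin (k + 1) → Ω,
          G u (y j') * Wk F k (fun l => y (j'.succAbove l))
          ∂(Measure.pi fun _ => μ) := split_one i hnu hΦ
    _ = (∫⁻ y, G u y ∂μ) * ((∫⁻ y, G u y ∂μ) * cf μ F k) := by
        rw [split_one j' hnu hW]
        rfl
    _ = _ := by
        rw [H.i1, sq, mul_assoc]

section meas

omit [IsProbabilityMeasure μ] in
theorem Hyp.prod (H : Hyp μ F G D) (k : ℕ) (u : Ω) :
    Measurable fun x : Fin k → Ω => (∏ i, F u (x i)) * Wk F k x := by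
  refine Measurable.mul ?_ (Wk_meas H.mF k)
  refine Finset.measurable_prod _ fun i _ => ?_
  have h0 : Measurable fun x : Fin k → Ω => (u, x i) := measurable_const.prodMk (measurable_pi_apply i)
  exact H.mF.comp h0

theorem Hyp.prod2 (H : Hyp μ F G D) (k : ℕ) :
    Measurable fun u => ∫⁻ x : Fin k → Ω, (∏ i, F u (x i)) * Wk F k x ∂(Measure.pi fun _ => μ) := by
  apply Measurable.lintegral_prod_right'
    (f := fun p : Ω × (Fin k → Ω) => (∏ i, F p.1 (p.2 i)) * Wk F k p.2)
  refine Measurable.mul ?_ ((Wk_meas H.mF k).comp measurable_snd)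
  refine Finset.measurable_prod _ fun i _ => ?_
  have h0 : Measurable fun p : Ω × (Fin k → Ω) => (p.1, p.2 i) :=
    measurable_fst.prodMk ((measurable_pi_apply i).comp measurable_snd)
  exact H.mF.comp h0

omit [IsProbabilityMeasure μ] in
theorem Hyp.one (H : Hyp μ F G D) (k : ℕ) (u : Ω) (i : Fin k) :
    Measurable fun x : Fin k → Ω => G u (x i) * Wk F k x := by
  refine Measurable.mul ?_ (Wk_meas H.mF k)
  have h0 : Measurable fun x : Fin k → Ω => (u, x i) := measurable_const.prodMk (measurable_pi_apply i)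
  exact H.mG.comp h0

theorem Hyp.one2 (H : Hyp μ F G D) (k : ℕ) (i : Fin k) :
    Measurable fun u => ∫⁻ x : Fin k → Ω, G u (x i) * Wk F k x ∂(Measure.pi fun _ => μ) := by
  apply Measurable.lintegral_prod_right'
    (f := fun p : Ω × (Fin k → Ω) => G p.1 (p.2 i) * Wk F k p.2)
  refine Measurable.mul ?_ ((Wk_meas H.mF k).comp measurable_snd)
  have h0 : Measurable fun p : Ω × (Fin k → Ω) => (p.1, p.2 i) :=
    measurable_fst.prodMk ((measurable_pi_apply i).comp measurable_snd)
  exact H.mG.comp h0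

omit [IsProbabilityMeasure μ] in
theorem Hyp.two (H : Hyp μ F G D) (k : ℕ) (u : Ω) (i j : Fin k) :
    Measurable fun x : Fin k → Ω => (G u (x i) * G u (x j)) * Wk F k x := by
  refine Measurable.mul ?_ (Wk_meas H.mF k)
  have h0 : ∀ i, Measurable fun x : Fin k → Ω => (u, x i) :=
    fun i => measurable_const.prodMk (measurable_pi_apply i)
  exact (H.mG.comp (h0 i)).mul (H.mG.comp (h0 j))

end meas

theorem lower (H : Hyp μ F G D) (k : ℕ) :
    cf μ F k ≤ cf μ F (k + 1) + k * (D * cf μ F k) := by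
  calc cf μ F k = ∫⁻ _u : Ω, ∫⁻ x : Fin k → Ω, Wk F k x ∂(Measure.pi fun _ => μ) ∂μ := by
        rw [lintegral_const, measure_univ, mul_one]
        rfl
    _ ≤ ∫⁻ u : Ω, ∫⁻ x : Fin k → Ω, ((∏ i, F u (x i)) * Wk F k x +
        ∑ i, G u (x i) * Wk F k x) ∂(Measure.pi fun _ => μ) ∂μ := by
        refine lintegral_mono fun u => lintegral_mono fun x => ?_
        simp only
        rw [← Finset.sum_mul, ← add_mul]
        exact le_mul_of_one_le_left (zero_le) (H.bonf u x).1
    _ = _ := by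
        simp_rw [lintegral_add_left (H.prod k _)]
        rw [lintegral_add_left (H.prod2 k), ← cf_succ H.mF]
        congr 1
        have h1 : ∀ u, ∫⁻ x : Fin k → Ω, ∑ i, G u (x i) * Wk F k x
            ∂(Measure.pi fun _ => μ) = ∑ i, ∫⁻ x : Fin k → Ω,
              G u (x i) * Wk F k x ∂(Measure.pi fun _ => μ) :=
          fun u => lintegral_finsetSum _ fun i _ => H.one k u i
        simp_rw [h1]
        rw [lintegral_finsetSum _ fun i _ => H.one2 k i]
        simp_rw [int_one H k]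
        rw [Finset.sum_const, Finset.card_univ, Fintype.card_fin, nsmul_eq_mul]

theorem int_two' (H : Hyp μ F G D) (k : ℕ) (i j : Fin k) (hij : i ≠ j) (u : Ω) :
    ∫⁻ x : Fin k → Ω, (G u (x i) * G u (x j)) * Wk F k x
      ∂(Measure.pi fun _ => μ) ≤ D ^ 2 * cf μ F (k - 2) := by
  match k, i, j, hij with
  | 0, i, _, _ => exact i.elim0
  | 1, i, j, hij => exact absurd (Subsingleton.elim i j) hij
  | k + 2, i, j, hij => exact int_two H k i j hij u

theorem upper (H : Hyp μ F G D) (k : ℕ) :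
    2 * cf μ F (k + 1) + 2 * (k * (D * cf μ F k)) ≤
      2 * cf μ F k + (k * k - k : ℕ) * (D ^ 2 * cf μ F (k - 2)) := by
  have hW := Wk_meas H.mF k
  have hL : 2 * cf μ F (k + 1) + 2 * (k * (D * cf μ F k)) =
      ∫⁻ u : Ω, ∫⁻ x : Fin k → Ω,
        (2 * ((∏ i, F u (x i)) * Wk F k x) + 2 * ∑ i, G u (x i) * Wk F k x)
        ∂(Measure.pi fun _ => μ) ∂μ := by
    simp_rw [lintegral_add_left ((H.prod k _).const_mul 2)]
    simp_rw [lintegral_const_mul 2 (H.prod k _)]
    rw [lintegral_add_left ((H.prod2 k).const_mul 2), lintegral_const_mul 2 (H.prod2 k),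
      ← cf_succ H.mF]
    congr 1
    have h1 : ∀ u, ∫⁻ x : Fin k → Ω, 2 * ∑ i, G u (x i) * Wk F k x
        ∂(Measure.pi fun _ => μ) = 2 * ∑ i, ∫⁻ x : Fin k → Ω,
          G u (x i) * Wk F k x ∂(Measure.pi fun _ => μ) := by
      intro u
      rw [lintegral_const_mul 2 (Finset.measurable_sum _ fun i _ => H.one k u i),
        lintegral_finsetSum _ fun i _ => H.one k u i]
    simp_rw [h1]
    rw [lintegral_const_mul 2 (Finset.measurable_sum _ fun i _ => H.one2 k i),
      lintegral_finsetSum _ fun i _ => H.one2 k i]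
    simp_rw [int_one H k]
    rw [Finset.sum_const, Finset.card_univ, Fintype.card_fin, nsmul_eq_mul]
  rw [hL]
  calc ∫⁻ u : Ω, ∫⁻ x : Fin k → Ω,
        (2 * ((∏ i, F u (x i)) * Wk F k x) + 2 * ∑ i, G u (x i) * Wk F k x)
        ∂(Measure.pi fun _ => μ) ∂μ
      ≤ ∫⁻ _u : Ω, (2 * cf μ F k +
        (k * k - k : ℕ) * (D ^ 2 * cf μ F (k - 2))) ∂μ := by
        refine lintegral_mono fun u => ?_
        simp only
        calc ∫⁻ x : Fin k → Ω, (2 * ((∏ i, F u (x i)) * Wk F k x) +
              2 * ∑ i, G u (x i) * Wk F k x) ∂(Measure.pi fun _ => μ)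
            ≤ ∫⁻ x : Fin k → Ω, (2 * Wk F k x +
              ∑ p ∈ (univ : Finset (Fin k)).offDiag,
                (G u (x p.1) * G u (x p.2)) * Wk F k x)
              ∂(Measure.pi fun _ => μ) := by
              refine lintegral_mono fun x => ?_
              simp only
              rw [← Finset.sum_mul, ← Finset.sum_mul, ← mul_assoc, ← mul_assoc, ← add_mul,
                ← add_mul]
              exact mul_le_mul' (H.bonf u x).2 le_rfl
          _ = 2 * cf μ F k + ∑ p ∈ (univ : Finset (Fin k)).offDiag,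
              ∫⁻ x : Fin k → Ω,
                (G u (x p.1) * G u (x p.2)) * Wk F k x
              ∂(Measure.pi fun _ => μ) := by
              rw [lintegral_add_left (hW.const_mul 2), lintegral_const_mul 2 hW,
                lintegral_finsetSum _ fun p _ => H.two k u p.1 p.2]
              rfl
          _ ≤ 2 * cf μ F k + ∑ p ∈ (univ : Finset (Fin k)).offDiag,
              D ^ 2 * cf μ F (k - 2) := by
              refine add_le_add le_rfl (Finset.sum_le_sum fun p hp => ?_)
              exact int_two' H k p.1 p.2 (Finset.mem_offDiag.1 hp).2.2 u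
          _ ≤ _ := by
              refine add_le_add le_rfl ?_
              rw [Finset.sum_const, nsmul_eq_mul]
              refine mul_le_mul' ?_ le_rfl
              rw [Finset.offDiag_card, Finset.card_univ, Fintype.card_fin]
    _ = _ := by rw [lintegral_const, measure_univ, mul_one]

theorem cf_mono (H : Hyp μ F G D) (k : ℕ) : cf μ F (k + 1) ≤ cf μ F k := by
  rw [cf_succ H.mF]
  calc ∫⁻ u : Ω, ∫⁻ x : Fin k → Ω, (∏ i, F u (x i)) * Wk F k x ∂(Measure.pi fun _ => μ) ∂μ
      ≤ ∫⁻ _u : Ω, ∫⁻ x : Fin k → Ω, Wk F k x ∂(Measure.pi fun _ => μ) ∂μ := by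
        refine lintegral_mono fun u => lintegral_mono fun x => ?_
        refine mul_le_of_le_one_left (zero_le) (Finset.prod_le_one' fun i _ => ?_)
        rcases H.fg u (x i) with ⟨h, _⟩ | ⟨h, _⟩
        · rw [h]
        · rw [h]; exact zero_le
    _ = _ := by
        rw [lintegral_const, measure_univ, mul_one]
        rfl

/-- the real form -/
theorem real (H : Hyp μ F G D) {c : ℕ → ℝ} (hc0 : ∀ k, 0 ≤ c k)
    (hc : ∀ k, cf μ F k = ENNReal.ofReal (c k)) {d : ℝ} (hd : 0 ≤ d) (hD : D = ENNReal.ofReal d)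
    (k : ℕ) : c k ≤ c (k + 1) + k * (d * c k) ∧ c (k + 1) ≤ c k ∧
      2 * c (k + 1) + 2 * (k * (d * c k)) ≤ 2 * c k + (k * k - k : ℕ) * (d ^ 2 * c (k - 2)) := by
  have h1 := lower H k
  have h2 := upper H k
  have h3 := cf_mono H k
  rw [hc, hc, hD] at h1
  rw [hc, hc] at h3
  rw [hc, hc, hc, hD] at h2
  have hk : (0:ℝ) ≤ k := Nat.cast_nonneg k
  have e1 : ENNReal.ofReal (c (k + 1)) + (k : ℝ≥0∞) * (ENNReal.ofReal d * ENNReal.ofReal (c k)) =
      ENNReal.ofReal (c (k + 1) + k * (d * c k)) := by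
    rw [ENNReal.ofReal_add (hc0 _) (by have := hc0 k; positivity), ENNReal.ofReal_mul hk,
      ENNReal.ofReal_mul hd, ENNReal.ofReal_natCast]
  have p1 : 0 ≤ c (k + 1) + k * (d * c k) := by
    have := hc0 k
    have := hc0 (k + 1)
    positivity
  have e2 : 2 * ENNReal.ofReal (c (k + 1)) +
      2 * ((k : ℝ≥0∞) * (ENNReal.ofReal d * ENNReal.ofReal (c k))) =
      ENNReal.ofReal (2 * c (k + 1) + 2 * (k * (d * c k))) := by
    rw [ENNReal.ofReal_add (by have := hc0 (k + 1); positivity) (by have := hc0 k; positivity),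
      ENNReal.ofReal_mul (by norm_num), ENNReal.ofReal_mul (by norm_num), ENNReal.ofReal_mul hk,
      ENNReal.ofReal_mul hd, ENNReal.ofReal_natCast]
    norm_num
  have e3 : 2 * ENNReal.ofReal (c k) + ((k * k - k : ℕ) : ℝ≥0∞) *
      (ENNReal.ofReal d ^ 2 * ENNReal.ofReal (c (k - 2))) =
      ENNReal.ofReal (2 * c k + (k * k - k : ℕ) * (d ^ 2 * c (k - 2))) := by
    rw [ENNReal.ofReal_add (by have := hc0 k; positivity) (by have := hc0 (k - 2); positivity),
      ENNReal.ofReal_mul (by norm_num), ENNReal.ofReal_mul (Nat.cast_nonneg _),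
      ENNReal.ofReal_mul (by positivity), ENNReal.ofReal_natCast, ENNReal.ofReal_pow hd]
    norm_num
  have p3 : 0 ≤ 2 * c k + (k * k - k : ℕ) * (d ^ 2 * c (k - 2)) := by
    have := hc0 k
    have := hc0 (k - 2)
    positivity
  rw [e1] at h1
  rw [e2, e3] at h2
  exact ⟨(ENNReal.ofReal_le_ofReal_iff p1).1 h1, (ENNReal.ofReal_le_ofReal_iff (hc0 k)).1 h3,
    (ENNReal.ofReal_le_ofReal_iff p3).1 h2⟩

end

/-- the arithmetic -/
theorem arith {c : ℕ → ℝ} (hc0 : ∀ k, 0 ≤ c k) {d : ℝ} (hd : 0 ≤ d) (h : ∀ k : ℕ,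
    c k ≤ c (k + 1) + k * (d * c k) ∧ c (k + 1) ≤ c k ∧
      2 * c (k + 1) + 2 * (k * (d * c k)) ≤ 2 * c k + (k * k - k : ℕ) * (d ^ 2 * c (k - 2)))
    (k : ℕ) (hk : k * d ≤ 1 / 2) : (1 - k * d) * c k ≤ c (k + 1) ∧
      c (k + 1) ≤ (1 - k * d + 2 * (k * d) ^ 2) * c k := by
  obtain ⟨h1, h2, h3⟩ := h k
  refine ⟨by linarith, ?_⟩
  rcases Nat.lt_or_ge k 2 with hk2 | hk2
  · have : k = 0 ∨ k = 1 := by omega
    rcases this with rfl | rfl
    · simp at h2 ⊢
      exact h2
    · simp at h3 ⊢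
      have := hc0 1
      nlinarith [mul_nonneg (sq_nonneg d) this]
  · obtain ⟨m, rfl⟩ : ∃ m, k = m + 2 := ⟨k - 2, by omega⟩
    have hm : (0:ℝ) ≤ m := Nat.cast_nonneg m
    push_cast at hk h3 ⊢
    have h4 := (h m).1
    have h5 := (h (m + 1)).1
    push_cast at h5
    have h6 : 1 / 2 * c m ≤ c (m + 1) := by nlinarith [hc0 m]
    have h7 : 1 / 2 * c (m + 1) ≤ c (m + 2) := by
      have h8 : (m + 1 : ℝ) * d ≤ 1 / 2 := by nlinarith
      have : (m + 1 : ℝ) * (d * c (m + 1)) ≤ 1 / 2 * c (m + 1) := by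
        rw [← mul_assoc]
        exact mul_le_mul_of_nonneg_right h8 (hc0 _)
      have e : c (m + 1 + 1) = c (m + 2) := rfl
      rw [e] at h5
      linarith
    have h8 : c m ≤ 4 * c (m + 2) := by linarith
    have h9 : (((m + 2) * (m + 2) - (m + 2) : ℕ) : ℝ) ≤ ((m : ℝ) + 2) ^ 2 := by
      have : ((m + 2) * (m + 2) - (m + 2) : ℕ) ≤ (m + 2) * (m + 2) := Nat.sub_le _ _
      calc (((m + 2) * (m + 2) - (m + 2) : ℕ) : ℝ) ≤ (((m + 2) * (m + 2) : ℕ) : ℝ) := by
            exact_mod_cast this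
        _ = _ := by push_cast; ring
    have h10 : (((m + 2) * (m + 2) - (m + 2) : ℕ) : ℝ) * (d ^ 2 * c m) ≤
        ((m : ℝ) + 2) ^ 2 * (d ^ 2 * (4 * c (m + 2))) := by
      apply mul_le_mul h9 _ (mul_nonneg (sq_nonneg d) (hc0 m)) (by positivity)
      exact mul_le_mul_of_nonneg_left h8 (sq_nonneg d)
    nlinarith

section

variable {n : ℕ} {r : ℝ}

theorem far_cases (x y : Torus n) : (far n r x y = 1 ∧ 1 - far n r x y = 0) ∨
    (far n r x y = 0 ∧ 1 - far n r x y = 1) := by
  by_cases h : r ^ 2 ≤ sqd x y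
  · left
    have : far n r x y = 1 := if_pos h
    rw [this]
    simp
  · right
    have : far n r x y = 0 := if_neg h
    rw [this]
    simp

theorem sqd_comm (x y : Torus n) : sqd x y = sqd y x := by
  unfold sqd
  exact Finset.sum_congr rfl fun i _ => by rw [norm_sub_rev]

theorem far_comm (x y : Torus n) : far n r x y = far n r y x := by
  unfold far
  rw [sqd_comm]

theorem drop_far (k : ℕ) (x : Fin (k + 1) → Torus n) (i : Fin (k + 1)) :
    Wk (far n r) (k + 1) x ≤ Wk (far n r) k fun j => x (i.succAbove j) := by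
  classical
  rw [Wk_far, Wk_far]
  split_ifs with h1 h2
  · exact le_rfl
  · exact absurd (fun a b hab => h1 _ _ (Fin.strictMono_succAbove i hab)) h2
  · exact zero_le
  · exact le_rfl

theorem int_far (hn : 1 ≤ n) (hr : 0 < r) (hr2 : r ≤ 1 / 2) (u : Torus n) :
    ∫⁻ y, (1 - far n r u y) ∂(vol n) = ENNReal.ofReal (ballVol n r) := by
  rw [← (Pool.Agent.N457.HG.Torus.torus n hn r hr hr2).1 u]
  have hmeas : MeasurableSet {y : Torus n | sqd y u < r ^ 2} := by
    have h1 : Continuous fun y : Torus n => sqd y u := by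
      unfold sqd
      fun_prop
    exact (isOpen_lt h1 continuous_const).measurableSet
  rw [← lintegral_indicator_one hmeas]
  refine lintegral_congr fun y => ?_
  rw [Set.indicator_apply]
  by_cases h : r ^ 2 ≤ sqd u y
  · have h1 : far n r u y = 1 := if_pos h
    rw [h1, if_neg, tsub_self]
    rw [Set.mem_ofPred_eq, sqd_comm]
    exact not_lt.2 h
  · have h1 : far n r u y = 0 := if_neg h
    rw [h1, if_pos]
    · simp
    · rw [Set.mem_ofPred_eq, sqd_comm]
      exact not_le.1 h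

theorem hyp (hn : 1 ≤ n) (hr : 0 < r) (hr2 : r ≤ 1 / 2) :
    Hyp (vol n) (far n r) (fun x y => 1 - far n r x y) (ENNReal.ofReal (ballVol n r)) where
  mF := far_meas n r
  mG := measurable_const.sub (far_meas n r)
  fg := far_cases
  drop := drop_far
  i1 := int_far hn hr hr2
  i2 := fun y => by
    rw [← int_far hn hr hr2 y]
    refine lintegral_congr fun u => ?_
    rw [far_comm]

theorem lowd : S_LOWD := by
  intro n k r hn hr hr4 hk
  have hp : IsProbabilityMeasure (vol n) := by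
    unfold vol
    infer_instance
  have H := hyp hn hr (by linarith : r ≤ 1 / 2)
  have hD0 : 0 ≤ ballVol n r := ENNReal.toReal_nonneg
  have hc0 : ∀ k, 0 ≤ conf n r k := fun k => measureReal_nonneg
  exact arith hc0 hD0 (real H hc0 (fun k => by rw [← cf_A H.mF, conf_eq]) hD0 rfl) k hk

end

end Pool.Agent.N707.HG
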